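import Pool.Agent.TH389.BB.Rep

/-! Positivity in the truncated path representation. -/

set_option autoImplicit false

namespace Pool.Agent.TH389.BB

open Pool.Agent.H207R2.BL Pool.Agent.H110R3.BP Pool.Agent.H110R3.BP2 Polynomial

/-- the weights for `δ = 2 cos (π / m)` -/
noncomputable def SS (m : ℕ) (h : ℤ) : ℝ :=
  if 0 < h ∧ h < (m : ℤ) then Real.sin (Real.pi * (h : ℝ) / (m : ℝ)) else 0

theorem SS_eq (m : ℕ) (hm : 3 ≤ m) (h : ℤ) (h0 : 0 ≤ h) (h1 : h ≤ (m : ℤ)) :
    SS m h = Real.sin (Real.pi * (h : ℝ) / (m : ℝ)) := by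
  unfold SS
  have hm0 : (m : ℝ) ≠ 0 := by
    have : (3 : ℝ) ≤ m := by exact_mod_cast hm
    linarith
  by_cases h2 : 0 < h ∧ h < (m : ℤ)
  · rw [if_pos h2]
  · rw [if_neg h2]
    have h3 : h = 0 ∨ h = (m : ℤ) := by omega
    rcases h3 with h3 | h3
    · subst h3; simp
    · subst h3
      have : Real.pi * (((m : ℤ) : ℝ)) / (m : ℝ) = Real.pi := by
        push_cast
        field_simp
      rw [this, Real.sin_pi]

theorem eigT (m : ℕ) (hm : 3 ≤ m) : EigT (m : ℤ) (2 * Real.cos (Real.pi / m)) (SS m) where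
  pos h h0 h1 := by
    have hmp : (0 : ℝ) < m := by
      have : (3 : ℝ) ≤ m := by exact_mod_cast hm
      linarith
    unfold SS
    rw [if_pos ⟨h0, h1⟩]
    have h0' : (0 : ℝ) < (h : ℝ) := by exact_mod_cast h0
    have h1' : (h : ℝ) < (m : ℝ) := by exact_mod_cast h1
    apply Real.sin_pos_of_pos_of_lt_pi
    · have := Real.pi_pos
      positivity
    · rw [div_lt_iff₀ hmp]
      exact mul_lt_mul_of_pos_left h1' Real.pi_pos
  zero h hh := if_neg hh
  recur h h0 h1 := by
    rw [SS_eq m hm (h + 1) (by omega) (by omega), SS_eq m hm (h - 1) (by omega) (by omega),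
      SS_eq m hm h (by omega) (by omega)]
    have e1 : Real.pi * ((h + 1 : ℤ) : ℝ) / (m : ℝ) =
        Real.pi * (h : ℝ) / m + Real.pi / m := by push_cast; ring
    have e2 : Real.pi * ((h - 1 : ℤ) : ℝ) / (m : ℝ) =
        Real.pi * (h : ℝ) / m - Real.pi / m := by push_cast; ring
    rw [e1, e2, Real.sin_add, Real.sin_sub]
    ring

variable {m : ℤ} {δ : ℝ} {S : ℤ → ℝ}

theorem s0_st (n j : ℕ) (hj : j ≤ 2 * n + 1) : s0 n (st n j) = decide (j % 2 = 0) := by
  unfold s0
  rw [st_val n j hj]

theorem hgt_s0 (n j : ℕ) (hj : j ≤ 2 * n + 2) :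
    hgt n (s0 n) j = if j % 2 = 0 then 1 else 2 := by
  induction j with
  | zero => rw [hgt_zero]; simp
  | succ j ih =>
    rw [hgt_succ, ih (by omega), s0_st n j (by omega)]
    rcases Nat.mod_two_eq_zero_or_one j with h | h
    · have h1 : (j + 1) % 2 = 1 := by omega
      simp [h, h1]
    · have h1 : (j + 1) % 2 = 0 := by omega
      simp [h, h1]

theorem ins_s0 (hm : 3 ≤ m) (n : ℕ) : Ins n m (s0 n) := by
  intro j hj
  rw [hgt_s0 n j hj]
  split_ifs <;> constructor <;> omega

theorem wt_one_false (hS : EigT m δ S) : wt S 1 false = 0 :=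
  wtT_out hS 1 false (by simp)

theorem gp_C (hS : EigT m δ S) (hm : 3 ≤ m) (n : ℕ) (κ : ℕ → Bool) (i : ℕ) (hi : i ≤ n) (b : Bool)
    (g : Fn (Fin (2 * n + 2)) Bool) (hg : GPos n κ g) :
    GPos n (Function.update κ i b) (Pt n m S (2 * i) g) := by
  constructor
  · intro s
    by_cases hin : Ins n m s
    · rw [Pt_in hin, pop_app]
      split_ifs with hs
      · have e : U n (Function.update κ i b) s * (wt S (hgt n s (2 * i)) (s (st n (2 * i))) *
            ∑ x : Bool, wt S (hgt n s (2 * i)) x * g (chg n (2 * i) s x)) =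
            wt S (hgt n s (2 * i)) (s (st n (2 * i))) * ∑ x : Bool, wt S (hgt n s (2 * i)) x *
              (U n κ (chg n (2 * i) s x) * g (chg n (2 * i) s x)) := by
          rw [mul_left_comm, Finset.mul_sum]
          congr 1
          refine Finset.sum_congr rfl fun x _ => ?_
          rw [T26_U n κ i hi b x s hs]
          unfold chg
          ring
        rw [e]
        exact mul_nonneg (wt_nonneg _ _)
          (Finset.sum_nonneg fun x _ => mul_nonneg (wt_nonneg _ _) (hg.1 _))
      · rw [mul_zero]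
    · rw [Pt_out hin, mul_zero]
  · have ha : s0 n (st n (2 * i)) = true := by rw [s0_st n _ (by omega)]; simp
    have hb : s0 n (st n (2 * i + 1)) = !(s0 n (st n (2 * i))) := by
      rw [ha, s0_st n _ (by omega)]
      have : (2 * i + 1) % 2 = 1 := by omega
      simp
    have hh : hgt n (s0 n) (2 * i) = 1 := by rw [hgt_s0 n _ (by omega)]; simp
    have hc : chg n (2 * i) (s0 n) true = s0 n := by
      have := chg_self n (2 * i) (by omega) (s0 n) hb
      rwa [ha] at this
    rw [Pt_in (ins_s0 hm n), pop_app, if_pos hb, hh, ha, Fintype.sum_bool, hc,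
      wt_one_false hS, zero_mul, add_zero]
    have h1 : wt S 1 true * (wt S 1 true * g (s0 n)) = wt S 1 true ^ 2 * g (s0 n) := by ring
    rw [h1, wt_sq hS]
    have p1 := hS.pos 1 (by norm_num) (by omega)
    have p2 := hS.pos 2 (by norm_num) (by omega)
    have : S (if true = true then (1 : ℤ) + 1 else 1 - 1) = S 2 := by simp
    rw [this]
    exact mul_pos (div_pos p2 p1) hg.2

theorem s0_odd (n i : ℕ) (hi : i < n) : s0 n (st n (2 * i + 1)) = false ∧
    s0 n (st n (2 * i + 1 + 1)) = !(s0 n (st n (2 * i + 1))) ∧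
    hgt n (s0 n) (2 * i + 1) = 2 ∧ chg n (2 * i + 1) (s0 n) false = s0 n := by
  have ha : s0 n (st n (2 * i + 1)) = false := by
    rw [s0_st n _ (by omega)]
    have : (2 * i + 1) % 2 = 1 := by omega
    simp
  have hb : s0 n (st n (2 * i + 1 + 1)) = !(s0 n (st n (2 * i + 1))) := by
    rw [ha, s0_st n _ (by omega)]
    have : (2 * i + 1 + 1) % 2 = 0 := by omega
    simp [this]
  refine ⟨ha, hb, ?_, ?_⟩
  · rw [hgt_s0 n _ (by omega)]
    have : (2 * i + 1) % 2 = 1 := by omega
    simp
  · have := chg_self n (2 * i + 1) (by omega) (s0 n) hb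
    rwa [ha] at this

theorem gp_J (hS : EigT m δ S) (hm : 3 ≤ m) (n : ℕ) (κ : ℕ → Bool) (i : ℕ) (hi : i < n)
    (hκ : κ i = κ (i + 1)) (g : Fn (Fin (2 * n + 2)) Bool) (hg : GPos n κ g) :
    GPos n κ (Pt n m S (2 * i + 1) g) := by
  constructor
  · intro s
    by_cases hin : Ins n m s
    · rw [Pt_in hin, pop_app]
      split_ifs with hs
      · have e : U n κ s * (wt S (hgt n s (2 * i + 1)) (s (st n (2 * i + 1))) *
            ∑ x : Bool, wt S (hgt n s (2 * i + 1)) x * g (chg n (2 * i + 1) s x)) =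
            wt S (hgt n s (2 * i + 1)) (s (st n (2 * i + 1))) *
              ∑ x : Bool, wt S (hgt n s (2 * i + 1)) x *
              (U n κ (chg n (2 * i + 1) s x) * g (chg n (2 * i + 1) s x)) := by
          rw [mul_left_comm, Finset.mul_sum]
          congr 1
          refine Finset.sum_congr rfl fun x _ => ?_
          rw [U13_chg n κ i hi hκ s x hs]
          ring
        rw [e]
        exact mul_nonneg (wt_nonneg _ _)
          (Finset.sum_nonneg fun x _ => mul_nonneg (wt_nonneg _ _) (hg.1 _))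
      · rw [mul_zero]
    · rw [Pt_out hin, mul_zero]
  · obtain ⟨ha, hb, hh, hc⟩ := s0_odd n i hi
    rw [Pt_in (ins_s0 hm n), pop_app, if_pos hb, hh, ha, Fintype.sum_bool, hc]
    have h2 := hg.1 (chg n (2 * i + 1) (s0 n) true)
    rw [U13_chg n κ i hi hκ (s0 n) true hb, T26_U0, one_mul] at h2
    have h3 : wt S 2 false * (wt S 2 true * g (chg n (2 * i + 1) (s0 n) true) +
        wt S 2 false * g (s0 n)) = wt S 2 false * wt S 2 true *
          g (chg n (2 * i + 1) (s0 n) true) + wt S 2 false ^ 2 * g (s0 n) := by ring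
    rw [h3, wt_sq hS 2 false]
    have p1 := hS.pos 1 (by norm_num) (by omega)
    have p2 := hS.pos 2 (by norm_num) (by omega)
    have e : S (if false = true then (2 : ℤ) + 1 else 2 - 1) = S 1 := by simp
    rw [e]
    have h4 : 0 < S 1 / S 2 * g (s0 n) := mul_pos (div_pos p1 p2) hg.2
    have h5 : 0 ≤ wt S 2 false * wt S 2 true * g (chg n (2 * i + 1) (s0 n) true) :=
      mul_nonneg (mul_nonneg (wt_nonneg _ _) (wt_nonneg _ _)) h2
    linarith

theorem gp_X (hS : EigT m δ S) (hδ : 0 < δ) (hm : 4 ≤ m) (n : ℕ) (κ : ℕ → Bool) (i : ℕ)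
    (hi : i < n) (hκ : κ i ≠ κ (i + 1)) (g : Fn (Fin (2 * n + 2)) Bool) (hg : GPos n κ g) :
    GPos n κ (g - δ⁻¹ • Pt n m S (2 * i + 1) g) := by
  -- the value at an inside path
  have hval : ∀ s, Ins n m s → s (st n (2 * i + 1 + 1)) = !(s (st n (2 * i + 1))) →
      (g - δ⁻¹ • Pt n m S (2 * i + 1) g) s =
        wt S (hgt n s (2 * i + 1)) (!(s (st n (2 * i + 1)))) ^ 2 / δ * g s -
          δ⁻¹ * (wt S (hgt n s (2 * i + 1)) (s (st n (2 * i + 1))) *
            wt S (hgt n s (2 * i + 1)) (!(s (st n (2 * i + 1)))) *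
            g (chg n (2 * i + 1) s (!(s (st n (2 * i + 1)))))) := by
    intro s hin hs
    have h1 : (g - δ⁻¹ • Pt n m S (2 * i + 1) g) s =
        g s - δ⁻¹ * (Pt n m S (2 * i + 1) g s) := rfl
    have hw := wtT_sq_sum hS (hgt n s (2 * i + 1)) (hin _ (by omega)).1 (hin _ (by omega)).2
    have hc := chg_self n (2 * i + 1) (by omega) s hs
    have e2 : (wt S (hgt n s (2 * i + 1)) true ^ 2 +
        wt S (hgt n s (2 * i + 1)) false ^ 2) * δ⁻¹ = 1 := by
      rw [hw, mul_inv_cancel₀ hδ.ne']
    rw [h1, Pt_in hin, pop_app, if_pos hs, Fintype.sum_bool]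
    cases hx : s (st n (2 * i + 1)) with
    | true =>
      rw [hx] at hc
      rw [hc]
      simp only [Bool.not_true]
      linear_combination (-(g s)) * e2
    | false =>
      rw [hx] at hc
      rw [hc]
      simp only [Bool.not_false]
      linear_combination (-(g s)) * e2
  have hsign : ∀ s, s (st n (2 * i + 1 + 1)) = !(s (st n (2 * i + 1))) →
      U n κ (chg n (2 * i + 1) s (!(s (st n (2 * i + 1))))) = - U n κ s := by
    intro s hs
    rw [U14_U n κ i hi hκ s hs, if_neg (by cases s (st n (2 * i + 1)) <;> simp)]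
    ring
  constructor
  · intro s
    by_cases hin : Ins n m s
    · by_cases hs : s (st n (2 * i + 1 + 1)) = !(s (st n (2 * i + 1)))
      · rw [hval s hin hs]
        have h1 := hg.1 s
        have h2 := hg.1 (chg n (2 * i + 1) s (!(s (st n (2 * i + 1)))))
        rw [hsign s hs] at h2
        have h3 : 0 ≤ wt S (hgt n s (2 * i + 1)) (!(s (st n (2 * i + 1)))) ^ 2 / δ := by
          positivity
        have h4 : 0 ≤ δ⁻¹ * (wt S (hgt n s (2 * i + 1)) (s (st n (2 * i + 1))) *
            wt S (hgt n s (2 * i + 1)) (!(s (st n (2 * i + 1))))) :=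
          mul_nonneg (inv_nonneg.2 hδ.le) (mul_nonneg (wt_nonneg _ _) (wt_nonneg _ _))
        have h5 := mul_nonneg h3 h1
        have h6 := mul_nonneg h4 h2
        nlinarith
      · have : (g - δ⁻¹ • Pt n m S (2 * i + 1) g) s = g s := by
          show g s - δ⁻¹ * (Pt n m S (2 * i + 1) g s) = _
          rw [Pt_in hin, pop_app, if_neg hs]
          ring
        rw [this]
        exact hg.1 s
    · have : (g - δ⁻¹ • Pt n m S (2 * i + 1) g) s = g s := by
        show g s - δ⁻¹ * (Pt n m S (2 * i + 1) g s) = _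
        rw [Pt_out hin]
        ring
      rw [this]
      exact hg.1 s
  · obtain ⟨ha, hb, hh, hc⟩ := s0_odd n i hi
    rw [hval (s0 n) (ins_s0 (by omega) n) hb]
    have h2 := hg.1 (chg n (2 * i + 1) (s0 n) (!(s0 n (st n (2 * i + 1)))))
    rw [hsign (s0 n) hb, T26_U0] at h2
    rw [hh, ha] at *
    simp only [Bool.not_false] at *
    have p3 := hS.pos 3 (by norm_num) (by omega)
    have p2 := hS.pos 2 (by norm_num) (by omega)
    have e : wt S 2 true ^ 2 = S 3 / S 2 := by rw [wt_sq hS]; simp
    rw [e]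
    have h3 : 0 < S 3 / S 2 / δ * g (s0 n) := mul_pos (div_pos (div_pos p3 p2) hδ) hg.2
    have h4 : 0 ≤ δ⁻¹ * (wt S 2 false * wt S 2 true) :=
      mul_nonneg (inv_nonneg.2 hδ.le) (mul_nonneg (wt_nonneg _ _) (wt_nonneg _ _))
    have h6 := mul_nonneg h4 h2
    nlinarith

/-- the indicator of the lowest path -/
noncomputable def om0 (n : ℕ) : Fn (Fin (2 * n + 2)) Bool := fun s => if s = s0 n then 1 else 0

theorem ip_om0 (n : ℕ) (f : Fn (Fin (2 * n + 2)) Bool) : ip (om0 n) f = f (s0 n) := by
  unfold ip om0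
  simp

theorem gp_om0 (n : ℕ) (κ : ℕ → Bool) : GPos n κ (om0 n) := by
  constructor
  · intro s
    unfold om0
    by_cases h : s = s0 n
    · rw [h, T26_U0]; simp
    · rw [if_neg h, mul_zero]
  · unfold om0; simp

theorem Pt_om0 (hS : EigT m δ S) (hm : 3 ≤ m) (n i : ℕ) (hi : i ≤ n) :
    Pt n m S (2 * i) (om0 n) = δ • om0 n := by
  have ha : s0 n (st n (2 * i)) = true := by rw [s0_st n _ (by omega)]; simp
  have hb : s0 n (st n (2 * i + 1)) = !(s0 n (st n (2 * i))) := by
    rw [ha, s0_st n _ (by omega)]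
    have : (2 * i + 1) % 2 = 1 := by omega
    simp
  have hh : hgt n (s0 n) (2 * i) = 1 := by rw [hgt_s0 n _ (by omega)]; simp
  have hc : chg n (2 * i) (s0 n) true = s0 n := by
    have := chg_self n (2 * i) (by omega) (s0 n) hb
    rwa [ha] at this
  funext s
  show Pt n m S (2 * i) (om0 n) s = δ * om0 n s
  by_cases h0 : s = s0 n
  · subst h0
    rw [Pt_in (ins_s0 hm n), pop_app, if_pos hb, hh, ha, Fintype.sum_bool, hc,
      wt_one_false hS, zero_mul, add_zero]
    have hw := wtT_sq_sum hS 1 (by norm_num) (by omega)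
    rw [wt_one_false hS] at hw
    have : om0 n (s0 n) = 1 := by unfold om0; simp
    rw [this]
    linarith
  · have hz : om0 n s = 0 := if_neg h0
    rw [hz, mul_zero]
    by_cases hin : Ins n m s
    · rw [Pt_in hin, pop_app]
      split_ifs with hs
      · have key : ∀ x : Bool, wt S (hgt n s (2 * i)) (s (st n (2 * i))) *
            (wt S (hgt n s (2 * i)) x * om0 n (chg n (2 * i) s x)) = 0 := by
          intro x
          by_cases hx : chg n (2 * i) s x = s0 n
          · have hxt : x = true := by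
              have h1 := (chg_at n (2 * i) (by omega) s x).1
              rw [hx, ha] at h1
              exact h1.symm
            have hh1 : hgt n s (2 * i) = 1 := by
              have h1 := hgt_chg_le n (2 * i) (by omega) s x (2 * i) le_rfl
              rw [hx, hh] at h1
              exact h1.symm
            have hsf : s (st n (2 * i)) = false := by
              cases hv : s (st n (2 * i)) with
              | false => rfl
              | true =>
                exfalso
                apply h0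
                have h1 := chg_self n (2 * i) (by omega) s hs
                rw [hv, ← hxt, hx] at h1
                exact h1.symm
            rw [hh1, hsf, wt_one_false hS, zero_mul]
          · have : om0 n (chg n (2 * i) s x) = 0 := if_neg hx
            rw [this, mul_zero, mul_zero]
        rw [Finset.mul_sum]
        exact Finset.sum_eq_zero fun x _ => key x
      · rfl
    · rw [Pt_out hin]

theorem gp_word (hS : EigT m δ S) (hδ : 0 < δ) (hm : 4 ≤ m) (n : ℕ) (q : ℝ) (hq : q = δ ^ 2)
    (wd : List Let) (κ : ℕ → Bool) (hok : OK wd κ) (hr : ∀ l ∈ wd, InR n l) :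
    GPos n κ (T (trTL n hS hδ q hq) wd (om0 n)) := by
  induction hok with
  | nil κ =>
    have h : T (trTL n hS hδ q hq) [] = 1 := by simp [T]
    rw [h, Module.End.one_apply]
    exact gp_om0 n κ
  | C i b wd κ h ih =>
    have hi : i ≤ n := hr _ List.mem_cons_self
    have ih' := ih (fun l hl => hr l (List.mem_cons_of_mem _ hl))
    have h1 : T (trTL n hS hδ q hq) (Let.C i :: wd) (om0 n) = δ •
        Pt n m S (2 * i) (T (trTL n hS hδ q hq) wd (om0 n)) := by
      have h2 : T (trTL n hS hδ q hq) (Let.C i :: wd) =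
          ((if Even (2 * i) then δ else δ⁻¹) • Pt n m S (2 * i)) *
            T (trTL n hS hδ q hq) wd := by
        unfold T
        rw [List.map_cons, List.prod_cons]
        rfl
      rw [h2, if_pos (even_two_mul i)]
      rfl
    rw [h1]
    exact gpos_word_smul n _ _ _ hδ (gp_C hS (by omega) n κ i hi b _ ih')
  | J i wd κ h hκ ih =>
    have hi : i < n := hr _ List.mem_cons_self
    have ih' := ih (fun l hl => hr l (List.mem_cons_of_mem _ hl))
    have h1 : T (trTL n hS hδ q hq) (Let.J i :: wd) (om0 n) = δ⁻¹ •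
        Pt n m S (2 * i + 1) (T (trTL n hS hδ q hq) wd (om0 n)) := by
      have h2 : T (trTL n hS hδ q hq) (Let.J i :: wd) =
          ((if Even (2 * i + 1) then δ else δ⁻¹) • Pt n m S (2 * i + 1)) *
            T (trTL n hS hδ q hq) wd := by
        unfold T
        rw [List.map_cons, List.prod_cons]
        rfl
      have h3 : ¬ Even (2 * i + 1) := by
        rw [Nat.even_iff]
        omega
      rw [h2, if_neg h3]
      rfl
    rw [h1]
    exact gpos_word_smul n _ _ _ (inv_pos.mpr hδ) (gp_J hS (by omega) n κ i hi hκ _ ih')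
  | X i wd κ h hκ ih =>
    have hi : i < n := hr _ List.mem_cons_self
    have ih' := ih (fun l hl => hr l (List.mem_cons_of_mem _ hl))
    have h1 : T (trTL n hS hδ q hq) (Let.X i :: wd) (om0 n) =
        T (trTL n hS hδ q hq) wd (om0 n) - δ⁻¹ •
        Pt n m S (2 * i + 1) (T (trTL n hS hδ q hq) wd (om0 n)) := by
      have h2 : T (trTL n hS hδ q hq) (Let.X i :: wd) =
          (1 - ((if Even (2 * i + 1) then δ else δ⁻¹) • Pt n m S (2 * i + 1))) *
            T (trTL n hS hδ q hq) wd := by
        unfold T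
        rw [List.map_cons, List.prod_cons]
        rfl
      have h3 : ¬ Even (2 * i + 1) := by
        rw [Nat.even_iff]
        omega
      rw [h2, if_neg h3]
      rfl
    rw [h1]
    exact gp_X hS hδ hm n κ i hi hκ _ ih'

theorem good_pos_beraha {V : Type} [Fintype V] (col : V → Bool) (G : SimpleGraph V)
    (h : Good col [] G.edgeSet) (p : ℝ[X]) (hp : IsChrom G p) (hS : EigT m δ S) (hδ : 0 < δ)
    (hm : 4 ≤ m) (q : ℝ) (hq : q = δ ^ 2) : 0 < p.eval q := by
  obtain ⟨wd, κ, N, a, b, hok, -, hr, -, hw⟩ := h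
  obtain ⟨R, hR⟩ := state_T N wd hr
  have hqpos : 0 < q := by rw [hq]; positivity
  have hq0 : q ≠ 0 := hqpos.ne'
  have hL := laurent_eq p a b R (fun k hk => by
    have hk0 : (k : ℝ) ≠ 0 := by
      have : (1 : ℝ) ≤ (k : ℝ) := by exact_mod_cast hk
      linarith
    exact good_pos_nat G p hp wd N a b k hk (hw N le_rfl k hk) _
      (fun F => hR (k : ℝ) hk0 _ (PR N k) F)) q hqpos
  let T' := trTL N hS hδ q hq
  have hSsymm : ∀ j, j < 2 * N + 1 → ∀ f g : Fn (Fin (2 * N + 2)) Bool,
      ip f (T'.e j g) = ip (T'.e j f) g := by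
    intro j hj f g
    show ip f (((if Even j then δ else δ⁻¹) • Pt N m S j) g) =
      ip (((if Even j then δ else δ⁻¹) • Pt N m S j) f) g
    rw [LinearMap.smul_apply, LinearMap.smul_apply, ip_smul_right,
      ip_comm ((if Even j then δ else δ⁻¹) • (Pt N m S j) f) g, ip_smul_right,
      ip_comm g, Pt_symm hS N j (by omega)]
  have hSom : ∀ j, j < 2 * N + 1 → Even j → T'.e j (om0 N) = q • om0 N := by
    intro j hj he
    obtain ⟨i, rfl⟩ := even_iff_exists_two_mul.1 he
    show ((if Even (2 * i) then δ else δ⁻¹) • Pt N m S (2 * i)) (om0 N) = q • om0 N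
    rw [if_pos (even_two_mul i), LinearMap.smul_apply, Pt_om0 hS (by omega) N i (by omega),
      smul_smul, hq]
    congr 1
    ring
  have f1 := hR q hq0 _ T' (vecState T' hSsymm (om0 N) hSom)
  change ip (om0 N) (T T' wd (om0 N)) = _ * ip (om0 N)
    ((1 : Module.End ℝ (Fn (Fin (2 * N + 2)) Bool)) (om0 N)) at f1
  rw [Module.End.one_apply, ip_om0, ip_om0] at f1
  have hg : GPos N κ (T T' wd (om0 N)) := gp_word hS hδ hm N q hq wd κ hok hr
  have hip := hg.2
  rw [f1] at hip
  have h1 : om0 N (s0 N) = 1 := by unfold om0; simp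
  rw [h1, mul_one] at hip
  have hprod : 0 < q ^ b * p.eval q := by
    rw [hL]
    positivity
  exact (pos_iff_pos_of_mul_pos hprod).1 (by positivity)

theorem main_beraha {V : Type} [Fintype V] (G : SimpleGraph V) (hG : G.Colorable 2)
    (f : V → ℝ × ℝ) (hf : IsStraight G f) (p : ℝ[X]) (hp : IsChrom G p) (m : ℕ) (hm : 4 ≤ m) :
    0 < p.eval (2 + 2 * Real.cos (2 * Real.pi / m)) := by
  classical
  obtain ⟨C⟩ := hG
  have hb : Bip (fun v => decide (C v = 0)) G.edgeSet := by
    intro a b hab hne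
    have h1 : C a ≠ C b := C.valid (SimpleGraph.mem_edgeSet G |>.1 hab)
    have h2 : (C a = 0) ↔ (C b = 0) := decide_eq_decide.1 hne
    apply h1
    have h3 : ∀ x y : Fin 2, (x = 0 ↔ y = 0) → x = y := by decide
    exact h3 _ _ h2
  have hm4 : (4 : ℝ) ≤ m := by exact_mod_cast hm
  have hc : 0 < Real.cos (Real.pi / m) := by
    apply Real.cos_pos_of_mem_Ioo
    have h1 := Real.pi_pos
    constructor
    · have : 0 < Real.pi / m := by positivity
      linarith
    · rw [div_lt_div_iff₀ (by linarith) (by norm_num)]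
      nlinarith
  refine good_pos_beraha _ G (good_of_proc _ (straight_proc f hf) hb) p hp (eigT m (by omega))
    (by positivity) (by exact_mod_cast hm) _ ?_
  have h2 : (2 * Real.pi / m : ℝ) = 2 * (Real.pi / m) := by ring
  rw [h2, Real.cos_two_mul]
  ring

end Pool.Agent.TH389.BB
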